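import Pool.Agent.N831.GA.Stm

/-!
# GA/EX (helper570): from the comparison of gaps and points to exponents
-/

set_option autoImplicit false

namespace Pool.Agent.N570.GA.EX

open Complex Metric Filter Topology Pool.Agent.N831.GA

lemma log_le {p : ℝ} (hp : 0 < p) (K : ℝ) : ∀ᶠ x : ℝ in atTop, K * Real.log x ≤ x ^ p := by
  have h1 := (isLittleO_log_rpow_atTop hp).def (c := 1 / (|K| + 1)) (by positivity)
  filter_upwards [h1, eventually_ge_atTop (0 : ℝ)] with x hx hx0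
  have h2 : 0 ≤ x ^ p := Real.rpow_nonneg hx0 p
  rw [Real.norm_eq_abs, Real.norm_eq_abs, abs_of_nonneg h2] at hx
  have h3 : K * Real.log x ≤ |K| * |Real.log x| := by
    rw [← abs_mul]; exact le_abs_self _
  have h4 : (0:ℝ) < |K| + 1 := by positivity
  calc K * Real.log x ≤ |K| * |Real.log x| := h3
    _ ≤ |K| * (1 / (|K| + 1) * x ^ p) := mul_le_mul_of_nonneg_left hx (abs_nonneg K)
    _ = (|K| / (|K| + 1)) * x ^ p := by ring
    _ ≤ 1 * x ^ p := by
        apply mul_le_mul_of_nonneg_right _ h2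
        rw [div_le_one h4]; linarith
    _ = x ^ p := one_mul _

lemma E1 {x y z : ℝ} (hx : 1 < x) (h : x ^ z < y) :
    (z : EReal) ≤ lg y / ((Real.log x : ℝ) : EReal) := by
  have hx0 : 0 < x := by linarith
  have hL : 0 < Real.log x := Real.log_pos hx
  have hp : 0 < x ^ z := Real.rpow_pos_of_pos hx0 z
  have hy : 0 < y := hp.trans h
  unfold lg
  rw [if_pos hy, ← EReal.coe_div, EReal.coe_le_coe_iff, le_div_iff₀ hL]
  have h1 := Real.log_le_log hp h.le
  rwa [Real.log_rpow hx0] at h1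

lemma E2 {x y z : ℝ} (hx : 1 < x) (h : (z : EReal) < lg y / ((Real.log x : ℝ) : EReal)) :
    x ^ z < y := by
  have hx0 : 0 < x := by linarith
  have hL : 0 < Real.log x := Real.log_pos hx
  unfold lg at h
  split_ifs at h with hy
  · rw [← EReal.coe_div, EReal.coe_lt_coe_iff, lt_div_iff₀ hL] at h
    rw [← Real.log_rpow hx0] at h
    exact (Real.log_lt_log_iff (Real.rpow_pos_of_pos hx0 z) hy).1 h
  · exfalso
    rw [EReal.bot_div_of_pos_ne_top (by exact_mod_cast hL) (EReal.coe_ne_top _)] at h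
    exact not_lt_bot h

section

variable {γ : ℕ → ℝ} {Z : Set ℂ} {C T0 : ℝ}

lemma dirA (hC : 1 ≤ C) (hT : 2 ≤ T0)
    (hmono : ∀ n m : ℕ, 1 ≤ n → n ≤ m → γ n ≤ γ m) (htop : Tendsto γ atTop atTop)
    (hcount : ∀ ε : ℝ, 0 < ε → ∀ᶠ n : ℕ in atTop, (γ n) ^ (1 - ε) ≤ n ∧ (n : ℝ) ≤ (γ n) ^ (1 + ε))
    (h1 : ∀ n : ℕ, 1 ≤ n → T0 ≤ γ n → C * (γ (n + 1) - γ n) * Real.log (γ n) ≤ 1 →
      ∃ s ∈ Z, |s.im - γ n| ≤ 1 ∧ s.re - 1 / 2 ≤ C * (γ (n + 1) - γ n) ^ 2 * Real.log (γ n))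
    {a : ℝ} (ha : 0 ≤ a)
    (hR : ∀ ε : ℝ, 0 < ε → ∃ T : ℝ, ∀ s ∈ Z, T ≤ s.im → s.im ^ (-(2 * a + ε)) < s.re - 1 / 2)
    {h : ℝ} (hh : 0 < h) : ∀ᶠ n : ℕ in atTop, (n : ℝ) ^ (-(a + h)) < γ (n + 1) - γ n := by
  obtain ⟨T, hT'⟩ := hR h hh
  have hah : 0 < a + h := by linarith
  have he : 0 < h / (4 * (a + h)) := by positivity
  have hF1 := log_le (show 0 < a + 3 * h / 4 by positivity) C
  have hF2 := log_le (show 0 < h / 2 by positivity) (C * 2 ^ (2 * a + h))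
  filter_upwards [hcount _ he, htop.eventually hF1, htop.eventually hF2,
    htop.eventually (eventually_ge_atTop (max T0 (T + 1))), eventually_ge_atTop 1]
    with n hn hn1 hn2 hn3 hn4
  by_contra hcon
  rw [not_lt] at hcon
  have hd0 : 0 ≤ γ (n + 1) - γ n := sub_nonneg.2 (hmono n (n+1) hn4 (Nat.le_succ n))
  have h1' := h1 n hn4
  generalize γ (n + 1) - γ n = d at *
  generalize γ n = g at *
  have hg2 : 2 ≤ g := hT.trans ((le_max_left _ _).trans hn3)
  have hgT : T + 1 ≤ g := (le_max_right _ _).trans hn3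
  have hgp : 0 < g := by linarith
  have hlog : 0 ≤ Real.log g := Real.log_nonneg (by linarith)
  have hd1 : d ≤ g ^ (-(a + 3 * h / 4)) := by
    calc d ≤ (n : ℝ) ^ (-(a + h)) := hcon
      _ ≤ (g ^ (1 - h / (4 * (a + h)))) ^ (-(a + h)) :=
          Real.rpow_le_rpow_of_nonpos (Real.rpow_pos_of_pos hgp _) hn.1 (by linarith)
      _ = g ^ (-(a + 3 * h / 4)) := by
          rw [← Real.rpow_mul hgp.le]
          congr 1
          field_simp
          ring
  have hk1 : C * d * Real.log g ≤ 1 := by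
    calc C * d * Real.log g = (C * Real.log g) * d := by ring
      _ ≤ (C * Real.log g) * g ^ (-(a + 3 * h / 4)) :=
          mul_le_mul_of_nonneg_left hd1 (by positivity)
      _ ≤ g ^ (a + 3 * h / 4) * g ^ (-(a + 3 * h / 4)) :=
          mul_le_mul_of_nonneg_right hn1 (by positivity)
      _ = 1 := by rw [← Real.rpow_add hgp, add_neg_cancel, Real.rpow_zero]
  obtain ⟨s, hs, hs1, hs2⟩ := h1' ((le_max_left _ _).trans hn3) hk1
  rw [abs_le] at hs1
  have hs3 : 0 < s.im := by linarith [hs1.1]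
  have hs4 := hT' s hs (by linarith [hs1.1])
  have hpow2 : (0:ℝ) < 2 ^ (2 * a + h) := by positivity
  have hs5 : s.re - 1/2 ≤ s.im ^ (-(2 * a + h)) := by
    calc s.re - 1 / 2 ≤ C * d ^ 2 * Real.log g := hs2
      _ ≤ C * (g ^ (-(a + 3 * h / 4))) ^ 2 * Real.log g := by gcongr
      _ = (C * Real.log g) * g ^ (-(2 * a + 3 * h / 2)) := by
          rw [← Real.rpow_natCast, ← Real.rpow_mul hgp.le]
          rw [show (-(a + 3 * h / 4)) * ((2 : ℕ) : ℝ) = -(2 * a + 3 * h / 2) by push_cast; ring]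
          ring
      _ = (C * 2 ^ (2 * a + h) * Real.log g) * ((2 ^ (2 * a + h))⁻¹ * g ^ (-(2 * a + 3 * h / 2))) := by
          field_simp
      _ ≤ g ^ (h / 2) * ((2 ^ (2 * a + h))⁻¹ * g ^ (-(2 * a + 3 * h / 2))) :=
          mul_le_mul_of_nonneg_right hn2 (by positivity)
      _ = (2 ^ (2 * a + h))⁻¹ * (g ^ (h / 2) * g ^ (-(2 * a + 3 * h / 2))) := by ring
      _ = (2 * g) ^ (-(2 * a + h)) := by
          rw [← Real.rpow_add hgp, Real.mul_rpow (by norm_num) hgp.le, Real.rpow_neg (by norm_num)]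
          congr 2
          ring
      _ ≤ s.im ^ (-(2 * a + h)) :=
          Real.rpow_le_rpow_of_nonpos hs3 (by linarith [hs1.2]) (by linarith)
  linarith

lemma dirB (hC : 1 ≤ C) (hT : 2 ≤ T0)
    (hmono : ∀ n m : ℕ, 1 ≤ n → n ≤ m → γ n ≤ γ m) (htop : Tendsto γ atTop atTop)
    (hcount : ∀ ε : ℝ, 0 < ε → ∀ᶠ n : ℕ in atTop, (γ n) ^ (1 - ε) ≤ n ∧ (n : ℝ) ≤ (γ n) ^ (1 + ε))
    (h2 : ∀ s ∈ Z, T0 ≤ s.im → C * (s.re - 1 / 2) * Real.log s.im ≤ 1 →
      ∃ n : ℕ, 1 ≤ n ∧ |γ n - s.im| ≤ 1 ∧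
        (γ (n + 1) - γ n) ^ 2 ≤ C * (s.re - 1 / 2) * Real.log s.im)
    {a : ℝ} (ha : 0 ≤ a)
    (hL : ∀ h : ℝ, 0 < h → ∀ᶠ n : ℕ in atTop, (n : ℝ) ^ (-(a + h)) < γ (n + 1) - γ n)
    {ε : ℝ} (hε : 0 < ε) :
    ∃ T : ℝ, ∀ s ∈ Z, T ≤ s.im → s.im ^ (-(2 * a + ε)) < s.re - 1 / 2 := by
  have hp : 0 < a + ε / 8 := by linarith
  have he : 0 < (ε / 16) / (a + ε / 8) := by positivity
  obtain ⟨N, hN⟩ := eventually_atTop.1 ((hL (ε/8) (by positivity)).and
    ((hcount _ he).and (htop.eventually (eventually_ge_atTop (1:ℝ)))))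
  have hev : ∀ᶠ t : ℝ in atTop, C * Real.log t ≤ t ^ (2 * a + ε) ∧ C * Real.log t ≤ t ^ (ε / 2) ∧
      (2:ℝ) ^ (2 * a + 3 * ε / 8) ≤ t ^ (ε / 8) ∧ T0 ≤ t ∧ γ (max N 1) + 1 < t :=
    (log_le (by positivity) C).and ((log_le (by positivity) C).and
      (((tendsto_rpow_atTop (show 0 < ε / 8 by positivity)).eventually (eventually_ge_atTop _)).and
        ((eventually_ge_atTop T0).and (eventually_gt_atTop _))))
  obtain ⟨T, hT'⟩ := eventually_atTop.1 hev
  refine ⟨T, ?_⟩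
  intro s hs hsT
  obtain ⟨k1, k2, k3, k4, k5⟩ := hT' s.im hsT
  by_contra hcon
  rw [not_lt] at hcon
  have h2' := h2 s hs k4
  generalize s.im = t at *
  have ht : 2 ≤ t := hT.trans k4
  have htp : 0 < t := by linarith
  have hlog : 0 ≤ Real.log t := Real.log_nonneg (by linarith)
  have hCl : 0 ≤ C * Real.log t := by positivity
  have q1 : C * (s.re - 1 / 2) * Real.log t ≤ 1 := by
    calc C * (s.re - 1 / 2) * Real.log t = (C * Real.log t) * (s.re - 1 / 2) := by ring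
      _ ≤ (C * Real.log t) * t ^ (-(2 * a + ε)) := mul_le_mul_of_nonneg_left hcon hCl
      _ ≤ t ^ (2 * a + ε) * t ^ (-(2 * a + ε)) := mul_le_mul_of_nonneg_right k1 (by positivity)
      _ = 1 := by rw [← Real.rpow_add htp, add_neg_cancel, Real.rpow_zero]
  obtain ⟨n, hn1, hn2, hn3⟩ := h2' q1
  rw [abs_le] at hn2
  have hnN : max N 1 ≤ n := by
    by_contra hlt
    rw [not_le] at hlt
    have := hmono n (max N 1) hn1 hlt.le
    linarith [hn2.1]
  obtain ⟨m1, m2, m3⟩ := hN n ((le_max_left _ _).trans hnN)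
  generalize γ (n + 1) - γ n = d at *
  generalize γ n = g at *
  have hgp : 0 < g := by linarith
  have hnp : (0:ℝ) < n := by exact_mod_cast (show 0 < n by omega)
  have q2 : d ^ 2 ≤ t ^ (-(2 * a + ε / 2)) := by
    calc d ^ 2 ≤ C * (s.re - 1 / 2) * Real.log t := hn3
      _ = (C * Real.log t) * (s.re - 1 / 2) := by ring
      _ ≤ (C * Real.log t) * t ^ (-(2 * a + ε)) := mul_le_mul_of_nonneg_left hcon hCl
      _ ≤ t ^ (ε / 2) * t ^ (-(2 * a + ε)) := mul_le_mul_of_nonneg_right k2 (by positivity)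
      _ = t ^ (-(2 * a + ε / 2)) := by
          rw [← Real.rpow_add htp]
          congr 1
          ring
  have q3 : (2 * t) ^ (-(a + 3 * ε / 16)) < d := by
    calc (2 * t) ^ (-(a + 3 * ε / 16)) ≤ g ^ (-(a + 3 * ε / 16)) :=
          Real.rpow_le_rpow_of_nonpos hgp (by linarith [hn2.2]) (by linarith)
      _ = (g ^ (1 + (ε / 16) / (a + ε / 8))) ^ (-(a + ε / 8)) := by
          rw [← Real.rpow_mul hgp.le]
          congr 1
          have : (1 + (ε / 16) / (a + ε / 8)) * (-(a + ε / 8)) =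
            -(a + ε / 8) - ((ε / 16) / (a + ε / 8)) * (a + ε / 8) := by ring
          rw [this, div_mul_cancel₀ _ hp.ne']
          ring
      _ ≤ (n : ℝ) ^ (-(a + ε / 8)) :=
          Real.rpow_le_rpow_of_nonpos hnp m2.2 (by linarith)
      _ < d := m1
  have q4 : (2 * t) ^ (-(2 * a + 3 * ε / 8)) < d ^ 2 := by
    have h0 : 0 ≤ (2 * t) ^ (-(a + 3 * ε / 16)) := by positivity
    have h5 := pow_lt_pow_left₀ q3 h0 (by norm_num : (2:ℕ) ≠ 0)
    rw [← Real.rpow_natCast ((2 * t) ^ (-(a + 3 * ε / 16))), ← Real.rpow_mul (by positivity)] at h5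
    rwa [show (-(a + 3 * ε / 16)) * ((2 : ℕ) : ℝ) = -(2 * a + 3 * ε / 8) by push_cast; ring] at h5
  have q5 : t ^ (-(2 * a + ε / 2)) ≤ (2 * t) ^ (-(2 * a + 3 * ε / 8)) := by
    rw [Real.mul_rpow (by norm_num) htp.le, Real.rpow_neg (by norm_num : (0:ℝ) ≤ 2)]
    rw [show -(2 * a + ε / 2) = -(ε / 8) + -(2 * a + 3 * ε / 8) by ring, Real.rpow_add htp]
    apply mul_le_mul_of_nonneg_right _ (by positivity)
    rw [Real.rpow_neg htp.le]
    exact inv_anti₀ (by positivity) k3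
  linarith

end

/-- **EX** -/
theorem t : Pool.Agent.N831.GA.S_EX := by
  intro γ Z C T0 hC hT hmono htop hcount h1 h2 a ha
  constructor
  · intro hL ε hε
    apply dirB hC hT hmono htop hcount h2 ha _ hε
    intro h hh
    have h3 : ((-(a + h) : ℝ) : EReal) <
        liminf (fun n : ℕ => lg (γ (n + 1) - γ n) / ((Real.log n : ℝ) : EReal)) atTop :=
      lt_of_lt_of_le (EReal.coe_lt_coe_iff.2 (by linarith)) hL
    have h4 := Filter.eventually_lt_of_lt_liminf h3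
    filter_upwards [h4, eventually_ge_atTop 2] with n hn hn2
    exact E2 (by exact_mod_cast hn2) hn
  · intro hR
    rw [← EReal.ge_of_forall_gt_iff_ge]
    intro z hz
    have hz' : z < -a := EReal.coe_lt_coe_iff.1 hz
    apply Filter.le_liminf_of_le (by isBoundedDefault)
    filter_upwards [dirA hC hT hmono htop hcount h1 ha hR (h := -a - z) (by linarith),
      eventually_ge_atTop 2] with n hn hn2
    apply E1 (by exact_mod_cast hn2)
    rwa [show -(a + (-a - z)) = z by ring] at hn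

end Pool.Agent.N570.GA.EX
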